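import Mathlib
import Pool.Agent.Lib.MP_cc7fb1_lc.DenseExists
import Pool.Agent.Lib.MP_cc7fb1_lc.Main

/-!
# MP_cc7fb1: a Galvin `κ`-complete ultrafilter on `κ⁺` from a closed dense ideal

Suppose `κ` is an uncountable inaccessible cardinal such that `κ`-complete filters on `κ⁺` extend to
`κ`-complete ultrafilters, `2 ^ κ = κ⁺`, and some normal ideal on `κ⁺` has a quotient algebra with
a dense subset of size `κ⁺` which is closed under descending sequences of length `< κ`.  Then there
is a uniform `κ`-complete ultrafilter on `κ⁺` (which is weakly normal, irregular and extends the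
dual of the ideal) with the Galvin property: the positive answer to Q1 fails at `κ`.
-/

set_option autoImplicit false

namespace Pool.Agent.Results.MP_cc7fb1_lc.GalvinFromDenseIdeal

open Cardinal Set
open Pool.Agent.Lib.MP_cc7fb1_lc

universe u

theorem result {κ : Cardinal.{u}} (hκ : κ.IsInaccessible)
    (h2 : (2 : Cardinal.{u}) ^ κ = Order.succ κ) (hext : FilterExtension κ)
    (F : Filter (Pts κ)) (hF : NormalFilter F) (D : Pts κ → Set (Pts κ)) (hD : DenseFamily F D)
    (hcl : DescClosed F D) :
    ∃ U : Ultrafilter (Pts κ), (U : Filter (Pts κ)) ≤ F ∧ UniformUF U ∧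
      CompleteFilter (U : Filter (Pts κ)) κ ∧ WeaklyNormal U ∧
      ¬ RegularUF U κ (Order.succ κ) ∧ Gal U (Order.succ κ) (Order.succ (Order.succ κ)) := by
  have hω : ℵ₀ ≤ κ := hκ.isRegular.aleph0_le
  obtain ⟨U, hUF, hu, hc, hw⟩ := exists_weaklyNormal hκ hext hF hD hcl
  have hG := gal_of_weaklyNormal hF hω h2 hD hUF hw
  refine ⟨U, hUF, hu, hc, hw, fun hreg => ?_, hG⟩
  exact (not_gal_of_regular hκ.aleph0_lt (mk_ord_toType _) hu hc hreg)
    (hG.mono (Order.le_succ κ))

end Pool.Agent.Results.MP_cc7fb1_lc.GalvinFromDenseIdeal
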